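import Pool.Agent.H777R2.IncMoll

/-! Mollification does not increase the `L²` norm, and a convergence lemma. -/

set_option autoImplicit false

open Set Filter Topology MeasureTheory Metric ContinuousLinearMap
open scoped ContDiff Convolution ENNReal

namespace Pool.Agent.Y767.IA

open H777R2.Inc

/-- mollification does not increase the `L²` norm -/
lemma conv_sq (β : ContDiffBump (0 : X)) {g : X → ℝ} (hg : AEStronglyMeasurable g volume) :
    ∫⁻ x, ‖(β.normed volume ⋆[lsmul ℝ ℝ, volume] g) x‖ₑ ^ (2 : ℝ) ≤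
      ∫⁻ x, ‖g x‖ₑ ^ (2 : ℝ) := by
  set b : X → ℝ≥0∞ := fun s => ENNReal.ofReal (β.normed volume s) with hb
  have hbc : Continuous (β.normed (volume : Measure X)) := β.continuous_normed
  have hbm : Measurable b := ENNReal.measurable_ofReal.comp hbc.measurable
  have hb1 : ∫⁻ s, b s = 1 := by
    rw [hb, ← ofReal_integral_eq_lintegral_ofReal β.integrable_normed
      (Eventually.of_forall fun x => β.nonneg_normed x), β.integral_normed, ENNReal.ofReal_one]
  have hgm : AEMeasurable (fun t => ‖g t‖ₑ ^ (2 : ℝ)) volume := hg.enorm.pow_const _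
  have hbx : ∀ x : X, Measurable (fun t => b (x - t)) := fun x =>
    hbm.comp (measurable_const.sub measurable_id)
  have hpt : ∀ x, ‖(β.normed volume ⋆[lsmul ℝ ℝ, volume] g) x‖ₑ ^ (2 : ℝ) ≤
      ∫⁻ t, b (x - t) * ‖g t‖ₑ ^ (2 : ℝ) := by
    intro x
    have h1 : ‖(β.normed volume ⋆[lsmul ℝ ℝ, volume] g) x‖ₑ ≤
        ∫⁻ t, b (x - t) ^ (1 / 2 : ℝ) * (b (x - t) * ‖g t‖ₑ ^ (2 : ℝ)) ^ (1 / 2 : ℝ) := by
      rw [conv_apply]
      refine (enorm_integral_le_lintegral_enorm _).trans (le_of_eq ?_)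
      apply lintegral_congr
      intro t
      rw [enorm_mul, Real.enorm_of_nonneg (β.nonneg_normed _),
        ENNReal.mul_rpow_of_nonneg _ _ (by norm_num), ← mul_assoc,
        ← ENNReal.rpow_add_of_nonneg _ _ (by norm_num) (by norm_num), ← ENNReal.rpow_mul]
      norm_num
      rfl
    have h2 := ENNReal.lintegral_mul_norm_pow_le (μ := (volume : Measure X))
      (f := fun t => b (x - t)) (g := fun t => b (x - t) * ‖g t‖ₑ ^ (2 : ℝ))
      (hbx x).aemeasurable ((hbx x).aemeasurable.mul hgm) (p := 1 / 2) (q := 1 / 2)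
      (by norm_num) (by norm_num) (by norm_num)
    have h3 : ∫⁻ t, b (x - t) = 1 := by
      rw [lintegral_sub_left_eq_self b x]
      exact hb1
    rw [h3, ENNReal.one_rpow, one_mul] at h2
    calc ‖(β.normed volume ⋆[lsmul ℝ ℝ, volume] g) x‖ₑ ^ (2 : ℝ)
        ≤ ((∫⁻ t, b (x - t) * ‖g t‖ₑ ^ (2 : ℝ)) ^ (1 / 2 : ℝ)) ^ (2 : ℝ) :=
          ENNReal.rpow_le_rpow (h1.trans h2) (by norm_num)
      _ = ∫⁻ t, b (x - t) * ‖g t‖ₑ ^ (2 : ℝ) := by
          rw [← ENNReal.rpow_mul]
          norm_num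
  have hm2 : AEMeasurable (Function.uncurry fun x t : X => b (x - t) * ‖g t‖ₑ ^ (2 : ℝ))
      (volume.prod volume) := by
    apply AEMeasurable.mul
    · exact (hbm.comp (measurable_fst.sub measurable_snd)).aemeasurable
    · exact (hg.comp_snd).enorm.pow_const _
  calc ∫⁻ x, ‖(β.normed volume ⋆[lsmul ℝ ℝ, volume] g) x‖ₑ ^ (2 : ℝ)
      ≤ ∫⁻ x, ∫⁻ t, b (x - t) * ‖g t‖ₑ ^ (2 : ℝ) := lintegral_mono hpt
    _ = ∫⁻ t, ∫⁻ x, b (x - t) * ‖g t‖ₑ ^ (2 : ℝ) := lintegral_lintegral_swap hm2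
    _ = ∫⁻ t, ‖g t‖ₑ ^ (2 : ℝ) := by
        apply lintegral_congr
        intro t
        have h5 : Measurable fun x : X => b (x - t) := hbm.comp (measurable_id.sub measurable_const)
        rw [lintegral_mul_const _ h5, lintegral_sub_right_eq_self b t, hb1, one_mul]

lemma conv_eLpNorm (β : ContDiffBump (0 : X)) {g : X → ℝ} (hg : AEStronglyMeasurable g volume) :
    eLpNorm (β.normed volume ⋆[lsmul ℝ ℝ, volume] g) 2 volume ≤ eLpNorm g 2 volume := by
  rw [eLpNorm_eq_lintegral_rpow_enorm_toReal (by norm_num) (by norm_num),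
    eLpNorm_eq_lintegral_rpow_enorm_toReal (by norm_num) (by norm_num)]
  simp only [ENNReal.toReal_ofNat]
  exact ENNReal.rpow_le_rpow (conv_sq β hg) (by norm_num)

/-- If `p n` is bounded in `L²` of a finite measure and converges almost everywhere to `p0`, then
`∫ p n * q → ∫ p0 * q` for every `q` in `L²`. -/
lemma tendsto_integral_mul {μ : Measure X} [IsFiniteMeasure μ] {p : ℕ → X → ℝ} {p0 q : X → ℝ}
    {M : ℝ≥0∞} (hM : M ≠ ⊤) (hp : ∀ n, eLpNorm (p n) 2 μ ≤ M)
    (hpm : ∀ n, AEStronglyMeasurable (p n) μ) (hq : MemLp q 2 μ)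
    (hlim : ∀ᵐ x ∂μ, Tendsto (fun n => p n x) atTop (𝓝 (p0 x))) :
    Integrable (fun x => p0 x * q x) μ ∧
      Tendsto (fun n => ∫ x, p n x * q x ∂μ) atTop (𝓝 (∫ x, p0 x * q x ∂μ)) := by
  have hholder : ∀ (u v : X → ℝ), AEStronglyMeasurable u μ → AEStronglyMeasurable v μ →
      eLpNorm (fun x => u x * v x) 1 μ ≤ eLpNorm u 2 μ * eLpNorm v 2 μ := by
    intro u v hu hv
    have h := eLpNorm_smul_le_mul_eLpNorm (p := 2) (q := 2) (r := 1) hv hu
    have h' : (u • v : X → ℝ) = fun x => u x * v x := rfl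
    rwa [h'] at h
  have hp0m : AEStronglyMeasurable p0 μ := aestronglyMeasurable_of_tendsto_ae _ hpm hlim
  have hp0 : eLpNorm p0 2 μ ≤ M := by
    refine (Lp.eLpNorm_lim_le_liminf_eLpNorm hpm p0 hlim).trans ?_
    refine (liminf_le_liminf (Eventually.of_forall hp)).trans ?_
    simp
  have hg : MemLp (fun x => p0 x * q x) 1 μ := by
    refine ⟨hp0m.mul hq.1, ?_⟩
    refine (hholder p0 q hp0m hq.1).trans_lt ?_
    exact ENNReal.mul_lt_top (lt_of_le_of_lt hp0 (lt_top_iff_ne_top.mpr hM)) hq.2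
  have hui : UnifIntegrable (fun n x => p n x * q x) 1 μ := by
    intro ε hε
    obtain ⟨δ, hδ, h⟩ := hq.eLpNorm_indicator_le (by norm_num) (by norm_num)
      (ε := ε / (M.toReal + 1)) (by positivity)
    refine ⟨δ, hδ, fun n s hs hμ => ?_⟩
    have h1 : s.indicator (fun x => p n x * q x) = fun x => p n x * s.indicator q x := by
      ext x
      by_cases hx : x ∈ s
      · rw [indicator_of_mem hx, indicator_of_mem hx]
      · rw [indicator_of_notMem hx, indicator_of_notMem hx, mul_zero]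
    rw [h1]
    refine (hholder (p n) (s.indicator q) (hpm n) (hq.1.indicator hs)).trans ?_
    calc eLpNorm (p n) 2 μ * eLpNorm (s.indicator q) 2 μ
        ≤ M * ENNReal.ofReal (ε / (M.toReal + 1)) := mul_le_mul' (hp n) (h s hs hμ)
      _ = ENNReal.ofReal (M.toReal * (ε / (M.toReal + 1))) := by
          rw [ENNReal.ofReal_mul ENNReal.toReal_nonneg, ENNReal.ofReal_toReal hM]
      _ ≤ ENNReal.ofReal ε := by
          apply ENNReal.ofReal_le_ofReal
          have h2 : 0 ≤ M.toReal := ENNReal.toReal_nonneg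
          rw [← mul_div_assoc, div_le_iff₀ (by positivity)]
          nlinarith
  have h1 := tendsto_Lp_finite_of_tendsto_ae (le_refl (1 : ℝ≥0∞)) ENNReal.one_ne_top
    (fun n => (hpm n).mul hq.1) hg hui
    (by filter_upwards [hlim] with x hx using hx.mul_const (q x))
  have hint : ∀ n, Integrable (fun x => p n x * q x) μ := by
    intro n
    rw [← memLp_one_iff_integrable]
    refine ⟨(hpm n).mul hq.1, ?_⟩
    exact (hholder (p n) q (hpm n) hq.1).trans_lt
      (ENNReal.mul_lt_top (lt_of_le_of_lt (hp n) (lt_top_iff_ne_top.mpr hM)) hq.2)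
  exact ⟨memLp_one_iff_integrable.mp hg,
    tendsto_integral_of_L1' _ hg.1 (Eventually.of_forall hint) h1⟩

end Pool.Agent.Y767.IA
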