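import Pool.Agent.H777R2.IncNA
import Pool.Agent.Y767.IA.Conv

/-! The weak Jacobian identity for maps with weak differential in `L²_loc`, and the uniform
distance of the map `F 1` from all such maps with determinant one. Adapted from the starting
files `H777R2/IncJac` and `H777R2/IncNA`, which treat locally bounded weak differentials. -/

set_option autoImplicit false

open Set Filter Topology MeasureTheory Metric ContinuousLinearMap
open scoped ContDiff Convolution ENNReal

namespace Pool.Agent.Y767.IA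

open H777R2.Inc

/-- `D` is square integrable on compact subsets of `U` -/
def L2B (U : Set X) (D : X → X →L[ℝ] X) : Prop :=
  ∀ K ⊆ U, IsCompact K → MemLp D 2 (volume.restrict K)

lemma memLp_comp_apply {μ : Measure X} {D : X → X →L[ℝ] X} (h : MemLp D 2 μ) (w : X)
    (L : X →L[ℝ] ℝ) : MemLp (fun x => L (D x w)) 2 μ :=
  (L.comp (ContinuousLinearMap.apply ℝ X w)).comp_memLp' h

lemma weak_jac2 {U : Set X} (hU : IsOpen U) {G : X → X} {D : X → X →L[ℝ] X} (h : WD U G D)
    (hb : L2B U D) {ψ : X → ℝ} (hψ : IsTest U ψ) : ∫ x, Jint ψ G D x = 0 := by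
  obtain ⟨δ, hδ, hδU⟩ := hψ.cpt.isCompact.exists_cthickening_subset_open hU hψ.supp
  set K := tsupport ψ with hKdef
  have hKc : IsCompact K := hψ.cpt
  have hKm : MeasurableSet K := hKc.measurableSet
  set K' := cthickening δ K with hK'def
  have hK'c : IsCompact K' := hKc.cthickening
  have hKK' : K ⊆ K' := self_subset_cthickening _
  haveI hfinK : IsFiniteMeasure ((volume : Measure X).restrict K) :=
    ⟨by rw [Measure.restrict_apply_univ]; exact hKc.measure_lt_top⟩
  obtain ⟨Cψ, hCψ⟩ := hψ.cpt.exists_bound_of_continuous hψ.smooth.continuous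
  have hCψ0 : 0 ≤ Cψ := (norm_nonneg _).trans (hCψ 0)
  obtain ⟨C1, hC1⟩ := (hψ.cpt.fderiv (𝕜 := ℝ)).exists_bound_of_continuous
    (hψ.smooth.continuous_fderiv (by simp))
  have hC10 : 0 ≤ C1 := (norm_nonneg _).trans (hC1 0)
  let β : ℕ → ContDiffBump (0 : X) := fun n =>
    { rIn := δ / (2 * (n + 1))
      rOut := δ / (n + 1)
      rIn_pos := by positivity
      rIn_lt_rOut := by
        apply div_lt_div_of_pos_left hδ (by positivity)
        have : (0 : ℝ) ≤ n := Nat.cast_nonneg n
        linarith }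
  have hβOut : ∀ n, (β n).rOut = δ / (n + 1) := fun n => rfl
  have hβIn : ∀ n, (β n).rIn = δ / (2 * (n + 1)) := fun n => rfl
  have hβle : ∀ n, (β n).rOut ≤ δ := fun n => by
    rw [hβOut]
    apply div_le_self hδ.le
    have : (0 : ℝ) ≤ n := Nat.cast_nonneg n
    linarith
  have hβt : Tendsto (fun n => (β n).rOut) atTop (𝓝 0) := by
    simp only [hβOut]
    have := (tendsto_one_div_add_atTop_nhds_zero_nat (𝕜 := ℝ)).const_mul δ
    simpa [div_eq_mul_inv] using this
  have hβr : ∀ᶠ n in atTop, (β n).rOut ≤ 2 * (β n).rIn := by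
    refine Eventually.of_forall fun n => le_of_eq ?_
    rw [hβOut, hβIn]; field_simp
  -- the functions to be mollified
  set L1 : X →L[ℝ] ℝ := ContinuousLinearMap.fst ℝ ℝ ℝ with hL1
  set L2 : X →L[ℝ] ℝ := ContinuousLinearMap.snd ℝ ℝ ℝ with hL2
  set u : X → ℝ := K'.indicator fun y => L1 (G y) with hu
  set uw : X → X → ℝ := fun w => K'.indicator fun y => L1 (D y w) with huw
  have hui : LocallyIntegrable u volume := by
    apply Integrable.locallyIntegrable
    rw [hu, integrable_indicator_iff hK'c.measurableSet]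
    exact (locallyIntegrableOn_comp h.locG L1).integrableOn_compact_subset hδU hK'c
  have huwi : ∀ w, LocallyIntegrable (uw w) volume := by
    intro w
    apply Integrable.locallyIntegrable
    rw [huw, integrable_indicator_iff hK'c.measurableSet]
    exact (locallyIntegrableOn_comp (locallyIntegrableOn_apply h.locD w)
      L1).integrableOn_compact_subset hδU hK'c
  have huw2 : ∀ w, MemLp (uw w) 2 volume := by
    intro w
    rw [huw]
    exact (memLp_indicator_iff_restrict hK'c.measurableSet).mpr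
      (memLp_comp_apply (hb K' hδU hK'c) w L1)
  let V : ℕ → X → ℝ := fun n => (β n).normed volume ⋆[lsmul ℝ ℝ, volume] u
  have hVs : ∀ n, ContDiff ℝ ∞ (V n) := fun n => conv_contDiff (β n) hui
  have hVd : ∀ n, ∀ x ∈ K, ∀ w, fderiv ℝ (V n) x w =
      ((β n).normed volume ⋆[lsmul ℝ ℝ, volume] (uw w)) x := by
    intro n x hx w
    apply moll_fderiv h hK'c hδU (β n) _ w L1
    exact (closedBall_subset_closedBall (hβle n)).trans (closedBall_subset_cthickening hx δ)
  have hVt : ∀ᵐ x, Tendsto (fun n => V n x) atTop (𝓝 (u x)) :=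
    ContDiffBump.ae_convolution_tendsto_right_of_locallyIntegrable hβt hβr hui
  have hVwt : ∀ w, ∀ᵐ x, Tendsto (fun n =>
      ((β n).normed volume ⋆[lsmul ℝ ℝ, volume] (uw w)) x) atTop (𝓝 (uw w x)) := fun w =>
    ContDiffBump.ae_convolution_tendsto_right_of_locallyIntegrable hβt hβr (huwi w)
  -- the test functions
  let χ : ℕ → X → ℝ := fun n x => ψ x * Real.sin (V n x)
  have hχ : ∀ n, IsTest U (χ n) := fun n =>
    { smooth := hψ.smooth.mul (Real.contDiff_sin.comp (hVs n))
      cpt := hψ.cpt.mul_right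
      supp := (closure_mono (fun x hx => by
        simp only [Function.mem_support, χ] at hx ⊢
        exact left_ne_zero_of_mul hx)).trans hψ.supp }
  have hχd : ∀ n x w, fderiv ℝ (χ n) x w =
      ψ x * (Real.cos (V n x) * fderiv ℝ (V n) x w) + Real.sin (V n x) * fderiv ℝ ψ x w := by
    intro n x w
    have h1 : HasFDerivAt ψ (fderiv ℝ ψ x) x :=
      (hψ.smooth.differentiable (by simp) x).hasFDerivAt
    have h2 : HasFDerivAt (V n) (fderiv ℝ (V n) x) x :=
      ((hVs n).differentiable (by simp) x).hasFDerivAt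
    have h3 := (h1.mul h2.sin).fderiv
    have h4 : fderiv ℝ (χ n) x = ψ x • (Real.cos (V n x) • fderiv ℝ (V n) x) +
        Real.sin (V n x) • fderiv ℝ ψ x := h3
    rw [h4]; simp
  have hχ0 : ∀ n, ∀ x, x ∉ K → ∀ w, fderiv ℝ (χ n) x w = 0 := by
    intro n x hx w
    have h1 : fderiv ℝ ψ x = 0 := image_eq_zero_of_notMem_tsupport fun h' =>
      hx (tsupport_fderiv_subset ℝ h')
    rw [hχd, image_eq_zero_of_notMem_tsupport hx, h1]; simp
  have hχm : ∀ n w, AEStronglyMeasurable (fun x => fderiv ℝ (χ n) x w) (volume.restrict K) :=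
    fun n w => ((hχ n).deriv w).smooth.continuous.aestronglyMeasurable
  -- the bound in `L²`
  have hC1m : MemLp (fun _ : X => C1) 2 (volume.restrict K) := memLp_const C1
  have hbound : ∀ w : X, ‖w‖ = 1 → ∀ n,
      eLpNorm (fun x => fderiv ℝ (χ n) x w) 2 (volume.restrict K) ≤
        ENNReal.ofReal Cψ * eLpNorm (uw w) 2 volume +
          eLpNorm (fun _ : X => C1) 2 (volume.restrict K) := by
    intro w hw n
    set c : X → ℝ := (β n).normed volume ⋆[lsmul ℝ ℝ, volume] (uw w) with hc
    have hcs : ContDiff ℝ ∞ c := conv_contDiff (β n) (huwi w)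
    have hcm : AEStronglyMeasurable c (volume.restrict K) := hcs.continuous.aestronglyMeasurable
    have h1 : ∀ᵐ x ∂(volume.restrict K), ‖fderiv ℝ (χ n) x w‖ ≤ ‖Cψ * ‖c x‖ + C1‖ := by
      filter_upwards [ae_restrict_mem hKm] with x hx
      rw [hχd, hVd n x hx w, Real.norm_of_nonneg (r := Cψ * ‖c x‖ + C1) (by positivity)]
      refine (norm_add_le _ _).trans ?_
      have h2 : ‖Real.sin (V n x) * fderiv ℝ ψ x w‖ ≤ C1 := by
        rw [norm_mul]
        calc ‖Real.sin (V n x)‖ * ‖fderiv ℝ ψ x w‖ ≤ 1 * C1 := by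
              gcongr
              · exact Real.abs_sin_le_one _
              · have := (fderiv ℝ ψ x).le_opNorm w
                rw [hw, mul_one] at this
                exact this.trans (hC1 x)
          _ = C1 := one_mul _
      have h3 : ‖ψ x * (Real.cos (V n x) * c x)‖ ≤ Cψ * ‖c x‖ := by
        rw [norm_mul, norm_mul]
        calc ‖ψ x‖ * (‖Real.cos (V n x)‖ * ‖c x‖) ≤ Cψ * (1 * ‖c x‖) := by
              gcongr
              · exact hCψ x
              · exact Real.abs_cos_le_one _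
          _ = Cψ * ‖c x‖ := by ring
      exact add_le_add h3 h2
    have h4 : eLpNorm (fun x => fderiv ℝ (χ n) x w) 2 (volume.restrict K) ≤
        eLpNorm (fun x => Cψ * ‖c x‖ + C1) 2 (volume.restrict K) := eLpNorm_mono_ae h1
    refine h4.trans ?_
    have h5 : eLpNorm (fun x => Cψ * ‖c x‖ + C1) 2 (volume.restrict K) ≤
        eLpNorm (fun x => Cψ * ‖c x‖) 2 (volume.restrict K) +
          eLpNorm (fun _ : X => C1) 2 (volume.restrict K) :=
      eLpNorm_add_le (hcm.norm.const_mul Cψ) aestronglyMeasurable_const (by norm_num)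
    refine h5.trans (add_le_add ?_ le_rfl)
    have h6 : eLpNorm (fun x => Cψ * ‖c x‖) 2 (volume.restrict K) =
        ENNReal.ofReal Cψ * eLpNorm c 2 (volume.restrict K) := by
      have h7 : (fun x => Cψ * ‖c x‖) = Cψ • (fun x => ‖c x‖) := rfl
      rw [h7, eLpNorm_const_smul, eLpNorm_norm, Real.enorm_of_nonneg hCψ0]
    rw [h6]
    refine mul_le_mul' le_rfl ?_
    exact (eLpNorm_mono_measure c Measure.restrict_le_self).trans
      (conv_eLpNorm (β n) (huw2 w).1)
  have hfin : ∀ w : X, ENNReal.ofReal Cψ * eLpNorm (uw w) 2 volume +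
      eLpNorm (fun _ : X => C1) 2 (volume.restrict K) ≠ ⊤ := fun w =>
    ENNReal.add_ne_top.mpr ⟨ENNReal.mul_ne_top ENNReal.ofReal_ne_top (huw2 w).2.ne, hC1m.2.ne⟩
  -- the limits
  set P : X → X → ℝ := fun w x =>
    ψ x * (Real.cos (G x).1 * (D x w).1) + Real.sin (G x).1 * fderiv ℝ ψ x w with hP
  have hlimP : ∀ w, ∀ᵐ x ∂(volume.restrict K),
      Tendsto (fun n => fderiv ℝ (χ n) x w) atTop (𝓝 (P w x)) := by
    intro w
    filter_upwards [ae_restrict_of_ae hVt, ae_restrict_of_ae (hVwt w), ae_restrict_mem hKm]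
      with x hx1 hx2 hx
    have hxK' := hKK' hx
    have hu1 : u x = (G x).1 := by rw [hu, indicator_of_mem hxK']; rfl
    have hu2 : uw w x = (D x w).1 := by
      rw [huw]; simp only; rw [indicator_of_mem hxK']; rfl
    rw [hu1] at hx1
    rw [hu2] at hx2
    simp only [← hVd _ x hx] at hx2
    simp only [hχd, hP]
    exact (((Real.continuous_cos.continuousAt.tendsto.comp hx1).mul hx2).const_mul _).add
      ((Real.continuous_sin.continuousAt.tendsto.comp hx1).mul_const _)
  have hDK : MemLp D 2 (volume.restrict K) := hb K hψ.supp hKc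
  have hq : ∀ w, MemLp (fun x => L2 (D x w)) 2 (volume.restrict K) := fun w =>
    memLp_comp_apply hDK w L2
  have hmain : ∀ w w' : X, ‖w‖ = 1 →
      Integrable (fun x => P w x * L2 (D x w')) (volume.restrict K) ∧
      Tendsto (fun n => ∫ x in K, fderiv ℝ (χ n) x w * L2 (D x w')) atTop
        (𝓝 (∫ x in K, P w x * L2 (D x w'))) := fun w w' hw =>
    tendsto_integral_mul (hfin w) (hbound w hw) (fun n => hχm n w) (hq w') (hlimP w)
  obtain ⟨hi1, ht1⟩ := hmain e1 e2 norm_e1
  obtain ⟨hi2, ht2⟩ := hmain e2 e1 norm_e2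
  have heq : ∀ n, ∫ x in K, fderiv ℝ (χ n) x e1 * L2 (D x e2) =
      ∫ x in K, fderiv ℝ (χ n) x e2 * L2 (D x e1) := by
    intro n
    rw [setIntegral_eq_integral_of_forall_compl_eq_zero
        (fun x hx => by rw [hχ0 n x hx, zero_mul]),
      setIntegral_eq_integral_of_forall_compl_eq_zero
        (fun x hx => by rw [hχ0 n x hx, zero_mul])]
    exact h.curl (hχ n) L2 e1 e2
  simp only [heq] at ht1
  have hAB : ∫ x in K, P e1 x * L2 (D x e2) = ∫ x in K, P e2 x * L2 (D x e1) :=
    tendsto_nhds_unique ht1 ht2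
  have hJ0 : ∀ x, x ∉ K → Jint ψ G D x = 0 := by
    intro x hx
    have h1 : fderiv ℝ ψ x = 0 := image_eq_zero_of_notMem_tsupport fun h' =>
      hx (tsupport_fderiv_subset ℝ h')
    rw [Jint, image_eq_zero_of_notMem_tsupport hx, h1]; simp
  rw [← setIntegral_eq_integral_of_forall_compl_eq_zero hJ0]
  have hJ : ∀ x, Jint ψ G D x = P e1 x * L2 (D x e2) - P e2 x * L2 (D x e1) := by
    intro x
    rw [Jint, det_X]
    change ψ x * (Real.cos (G x).1 * ((D x e1).1 * (D x e2).2 - (D x e2).1 * (D x e1).2)) +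
      Real.sin (G x).1 * (fderiv ℝ ψ x e1 * (D x e2).2 - fderiv ℝ ψ x e2 * (D x e1).2) =
      (ψ x * (Real.cos (G x).1 * (D x e1).1) + Real.sin (G x).1 * fderiv ℝ ψ x e1) *
        (D x e2).2 - (ψ x * (Real.cos (G x).1 * (D x e2).1) +
          Real.sin (G x).1 * fderiv ℝ ψ x e2) * (D x e1).2
    ring
  simp only [hJ]
  rw [integral_sub hi1 hi2, hAB, sub_self]

/-- **Uniform non-approximability** by maps with weak differential in `L²_loc`. -/
lemma non_approx2 : ∃ ε : ℝ, 0 < ε ∧ ∀ (G : X → X) (D : X → X →L[ℝ] X),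
    WD (ball 0 1) G D → L2B (ball 0 1) D →
    AEStronglyMeasurable G (volume.restrict (ball 0 1)) → IntegrableOn D (ball 0 1) →
    (∀ᵐ x ∂(volume.restrict (ball (0 : X) 1)), (D x).det = 1) →
    ENNReal.ofReal ε ≤ (∫⁻ x in ball (0 : X) 1, ‖G x - F 1 x‖ₑ) +
      ∫⁻ x in ball (0 : X) 1, ‖D x - fderiv ℝ (F 1) x‖ₑ := by
  obtain ⟨C1, hC1⟩ := (psi_test.cpt.fderiv (𝕜 := ℝ)).exists_bound_of_continuous
    (psi_test.smooth.continuous_fderiv (by simp))
  have hC10 : 0 ≤ C1 := (norm_nonneg _).trans (hC1 0)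
  have hT := T_pos (μ := 1) (by norm_num)
  set M := 1 + 22 * T 1 * C1 + 2 * C1 with hM
  have hM0 : 0 < M := by positivity
  refine ⟨7 / 8 / M, by positivity, fun G D hWD hLB hG hD hdet => ?_⟩
  have h1 : ∫ x, Jint psi G D x = 0 := weak_jac2 isOpen_ball hWD hLB psi_test
  have h2 : Jint psi G D =ᵐ[volume] J1 psi G D := by
    rw [ae_restrict_iff' measurableSet_ball] at hdet
    filter_upwards [hdet] with x hx
    by_cases hxb : x ∈ ball (0 : X) 1
    · rw [Jint, J1, hx hxb, mul_one]
    · rw [Jint, J1, psi_test.zero_off hxb, psi_test.fderiv_zero_off hxb]; simp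
  rw [integral_congr_ae h2] at h1
  have hi1 : Integrable (J1 psi G D) := integrable_J1 psi_test hG hD
  have hi2 : Integrable (J1 psi (F 1) (fderiv ℝ (F 1))) :=
    integrable_J1 psi_test (continuous_F (by norm_num)).aestronglyMeasurable
      (integrableOn_fderiv_F (by norm_num))
  have h3 : 7 / 8 ≤ ∫ x, (J1 psi G D x - J1 psi (F 1) (fderiv ℝ (F 1)) x) := by
    rw [integral_sub hi1 hi2, h1]
    have := integral_J1_F
    linarith
  have h4 : ENNReal.ofReal (7 / 8) ≤ ENNReal.ofReal M *
      ((∫⁻ x in ball (0 : X) 1, ‖G x - F 1 x‖ₑ) +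
      ∫⁻ x in ball (0 : X) 1, ‖D x - fderiv ℝ (F 1) x‖ₑ) := by
    calc ENNReal.ofReal (7 / 8)
        ≤ ENNReal.ofReal ‖∫ x, (J1 psi G D x - J1 psi (F 1) (fderiv ℝ (F 1)) x)‖ := by
          apply ENNReal.ofReal_le_ofReal
          exact h3.trans (le_abs_self _)
      _ = ‖∫ x, (J1 psi G D x - J1 psi (F 1) (fderiv ℝ (F 1)) x)‖ₑ := by rw [ofReal_norm]
      _ ≤ ∫⁻ x, ‖J1 psi G D x - J1 psi (F 1) (fderiv ℝ (F 1)) x‖ₑ :=
          enorm_integral_le_lintegral_enorm _
      _ = ∫⁻ x in ball (0 : X) 1, ‖J1 psi G D x - J1 psi (F 1) (fderiv ℝ (F 1)) x‖ₑ := by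
          symm
          apply setLIntegral_eq_of_support_subset
          intro x hx
          by_contra hxb
          apply hx
          have e1 : J1 psi G D x = 0 := by
            rw [J1, psi_test.zero_off hxb, psi_test.fderiv_zero_off hxb]; simp
          have e2 : J1 psi (F 1) (fderiv ℝ (F 1)) x = 0 := by
            rw [J1, psi_test.zero_off hxb, psi_test.fderiv_zero_off hxb]; simp
          simp only [e1, e2, sub_self]; simp
      _ ≤ ∫⁻ x in ball (0 : X) 1, ENNReal.ofReal M *
            (‖G x - F 1 x‖ₑ + ‖D x - fderiv ℝ (F 1) x‖ₑ) := by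
          apply setLIntegral_mono' measurableSet_ball
          intro x hx
          rw [← ofReal_norm, ← ofReal_norm, ← ofReal_norm,
            ← ENNReal.ofReal_add (norm_nonneg _) (norm_nonneg _), ← ENNReal.ofReal_mul hM0.le]
          apply ENNReal.ofReal_le_ofReal
          exact J1_diff hC1 G D x (by simpa using hx)
      _ = _ := by
          rw [lintegral_const_mul' _ _ ENNReal.ofReal_ne_top, lintegral_add_left']
          exact (hG.sub (continuous_F (μ := 1) (by norm_num)).aestronglyMeasurable).enorm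
  rw [ENNReal.ofReal_div_of_pos hM0]
  exact ENNReal.div_le_of_le_mul' h4

end Pool.Agent.Y767.IA
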